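import Mathlib

/-!
The algebraic core: a commutative ring with three commuting derivations.
-/

namespace Pool.Agent.H.MP_89bbb3_gt

section Alg

variable {A : Type} [CommRing A] [Algebra ℝ A] (d : Fin 3 → Derivation ℝ A A)

lemma two_eq : (2 : A) = algebraMap ℝ A 2 := (map_ofNat (algebraMap ℝ A) 2).symm

lemma half_two : (algebraMap ℝ A (1 / 2)) * 2 = 1 := by
  have h2' : (algebraMap ℝ A (1 / 2)) * (algebraMap ℝ A 2) = 1 := by
    rw [← map_mul]
    norm_num
  rw [← h2', ← two_eq]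

lemma two_cancel {a b : A} (h : 2 * a = 2 * b) : a = b := by
  have h2 : (algebraMap ℝ A (1 / 2)) * 2 = 1 := half_two
  calc a = (algebraMap ℝ A (1 / 2)) * 2 * a := by rw [h2, one_mul]
    _ = (algebraMap ℝ A (1 / 2)) * (2 * a) := by ring
    _ = (algebraMap ℝ A (1 / 2)) * (2 * b) := by rw [h]
    _ = (algebraMap ℝ A (1 / 2)) * 2 * b := by ring
    _ = b := by rw [h2, one_mul]

lemma d_two (D : Derivation ℝ A A) : D 2 = 0 := by
  rw [two_eq, Derivation.map_algebraMap]

lemma mul2 (D : Derivation ℝ A A) (a b : A) : D (a * b) = a * D b + b * D a := by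
  rw [Derivation.leibniz, smul_eq_mul, smul_eq_mul]

/-- Conformal Killing equations for a pp-wave imply that the `y`-component of the field does not
depend on `x`. -/
lemma eta_x (hd : ∀ i j a, d i (d j a) = d j (d i a)) (F F1 F2 F3 ξ η τ : A)
    (hF0 : d 0 F = F1) (hF2 : d 2 F = 0)
    (hF01 : d 0 F1 = F2) (hF21 : d 2 F1 = 0) (hF02 : d 0 F2 = F3)
    (h1 : d 2 η = 0) (h2 : 2 * d 2 ξ = - d 0 η)
    (h4 : d 2 τ = 2 * d 0 ξ - d 1 η) (h5 : d 0 τ = - (2 * d 1 ξ) - 2 * (F * d 0 η))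
    (h6 : d 1 τ = 2 * (d 0 ξ * F) - F1 * ξ - 2 * (F * d 1 η)) :
    F3 * d 0 η = 0 ∧ d 0 (d 0 ξ) = d 0 (d 1 η) ∧
      2 * (2 * d 0 (d 1 ξ) - d 1 (d 1 η)) = - (2 * (F * d 0 (d 0 η))) + F1 * d 0 η := by
  -- (B)
  have a1 := congrArg (d 0) h4
  have a2 := congrArg (d 2) h5
  simp only [map_sub, map_neg, mul2, d_two, mul_zero, add_zero] at a1 a2
  have b1 := congrArg (d 1) h2
  simp only [map_neg, mul2, d_two, mul_zero, add_zero] at b1
  have c1 := congrArg (d 0) h1
  rw [map_zero] at c1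
  have hB : d 0 (d 0 ξ) = d 0 (d 1 η) := by
    apply two_cancel
    rw [hd 2 0 τ, a1, hd 2 1 ξ, hd 2 0 η, c1, hF2] at a2
    rw [hd 1 0 η] at b1
    linear_combination a2 - b1
  -- (A)
  have e1 := congrArg (d 1) h4
  have e2 := congrArg (d 2) h6
  simp only [map_sub, mul2, d_two, mul_zero, add_zero] at e1 e2
  have e3 := congrArg (d 0) h2
  simp only [map_neg, mul2, d_two, mul_zero, add_zero] at e3
  have c2 := congrArg (d 1) h1
  rw [map_zero] at c2
  have hA : 2 * (2 * d 0 (d 1 ξ) - d 1 (d 1 η)) = - (2 * (F * d 0 (d 0 η))) + F1 * d 0 η := by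
    rw [hd 2 1 τ, e1, hF2, hF21, hd 2 0 ξ, hd 2 1 η, c2] at e2
    rw [hd 0 1 ξ]
    linear_combination 2 * e2 + 2 * F * e3 - F1 * h2
  -- (C)
  have f1 := congrArg (d 2) hB
  rw [hd 2 0, hd 2 0, hd 2 0, hd 2 1, h1, map_zero, map_zero] at f1
  have f2 := congrArg (d 0) e3
  simp only [map_neg, mul2, d_two, mul_zero, add_zero] at f2
  have hC : d 0 (d 0 (d 0 η)) = 0 := by
    linear_combination f2 - 2 * f1
  -- (D)
  have g1 := congrArg (d 2) hA
  simp only [map_add, map_sub, map_neg, mul2, d_two, mul_zero, add_zero] at g1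
  have g2 : d 2 (d 0 (d 1 ξ)) = d 0 (d 1 (d 2 ξ)) := by rw [hd 2 0, hd 2 1]
  have g3 : d 2 (d 1 (d 1 η)) = 0 := by rw [hd 2 1, hd 2 1, h1, map_zero, map_zero]
  have g4 : d 2 (d 0 (d 0 η)) = 0 := by rw [hd 2 0, hd 2 0, h1, map_zero, map_zero]
  have g5 : d 2 (d 0 η) = 0 := by rw [hd 2 0, h1, map_zero]
  have g6 := congrArg (d 0) b1
  simp only [map_neg, mul2, d_two, mul_zero, add_zero] at g6
  have hD : d 0 (d 1 (d 0 η)) = 0 := by
    rw [g2, g3, g4, g5, hF2, hF21] at g1
    apply two_cancel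
    linear_combination -g1 + 2 * g6
  -- differentiate (A) twice in x
  have k1 := congrArg (d 0) hA
  simp only [map_add, map_sub, map_neg, mul2, d_two, mul_zero, add_zero, hF0, hF01, hC] at k1
  have k2 : d 0 (d 0 (d 1 ξ)) = d 0 (d 1 (d 1 η)) := by
    rw [hd 0 1 ξ, hd 0 1 (d 0 ξ), hB, hd 1 0 (d 1 η)]
  have k3 : 2 * d 0 (d 1 (d 1 η)) = F2 * d 0 η - F1 * d 0 (d 0 η) := by
    rw [k2] at k1
    linear_combination k1
  have k4 := congrArg (d 0) k3
  simp only [map_sub, mul2, d_two, mul_zero, add_zero, hF01, hF02, hC] at k4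
  have k5 : d 0 (d 0 (d 1 (d 1 η))) = 0 := by
    rw [hd 0 1 (d 1 η), hd 0 1, hd 0 1 η, hd 0 1 (d 0 η)]
    rw [hd 0 1 (d 0 η)] at hD
    rw [hD, map_zero]
  refine ⟨?_, hB, hA⟩
  rw [k5] at k4
  linear_combination -k4

/-- A null conformal Killing field of the pp-wave with `F3` invertible is proportional
to `∂/∂t`. -/
lemma null_ckf (hd : ∀ i j a, d i (d j a) = d j (d i a)) [IsReduced A] (F F1 F2 F3 ξ η τ : A)
    (hF0 : d 0 F = F1) (hF2 : d 2 F = 0)
    (hF01 : d 0 F1 = F2) (hF21 : d 2 F1 = 0) (hF02 : d 0 F2 = F3) (hu : IsUnit F3)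
    (h1 : d 2 η = 0) (h2 : 2 * d 2 ξ = - d 0 η)
    (h4 : d 2 τ = 2 * d 0 ξ - d 1 η) (h5 : d 0 τ = - (2 * d 1 ξ) - 2 * (F * d 0 η))
    (h6 : d 1 τ = 2 * (d 0 ξ * F) - F1 * ξ - 2 * (F * d 1 η))
    (hN : ξ * ξ + η * τ + F * (η * η) = 0) :
    ξ = 0 ∧ η = 0 ∧ (∀ i, d i τ = 0) := by
  obtain ⟨p1, hB, hA⟩ := eta_x d hd F F1 F2 F3 ξ η τ hF0 hF2 hF01 hF21 hF02 h1 h2 h4 h5 h6
  have e0 : d 0 η = 0 := (hu.mul_right_eq_zero).mp p1
  have e01 : d 0 (d 1 η) = 0 := by rw [hd 0 1, e0, map_zero]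
  rw [e01] at hB
  rw [e0, map_zero] at hA
  rw [e0] at h5
  have hA' : 2 * d 0 (d 1 ξ) = d 1 (d 1 η) := by
    apply two_cancel
    linear_combination hA
  -- derivatives of the null condition
  have n1 := congrArg (d 0) hN
  simp only [map_add, mul2, map_zero, hF0, e0, mul_zero, add_zero, zero_add] at n1
  rw [h5] at n1
  have n1' : 2 * (ξ * d 0 ξ) - 2 * (η * d 1 ξ) + F1 * (η * η) = 0 := by
    linear_combination n1
  have n2 := congrArg (d 0) n1'
  simp only [map_add, map_sub, mul2, map_zero, hF01, e0, mul_zero, add_zero, zero_add, d_two,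
    hB] at n2
  have n3 := congrArg (d 0) n2
  simp only [map_add, map_sub, mul2, map_zero, hF02, e0, mul_zero, add_zero, zero_add, d_two,
    hB] at n3
  have m1 : d 0 (d 0 (d 1 ξ)) = 0 := by
    rw [hd 0 1 ξ, hd 0 1, hB, map_zero]
  rw [m1] at n3
  have hη2 : η * η = 0 := by
    apply (hu.mul_right_eq_zero).mp
    linear_combination n3
  have hη : η = 0 := by
    rw [← sq] at hη2
    exact pow_eq_zero_iff (two_ne_zero) |>.mp hη2
  have hξ : ξ = 0 := by
    have : ξ ^ 2 = 0 := by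
      rw [hη] at hN
      linear_combination hN
    exact pow_eq_zero_iff (two_ne_zero) |>.mp this
  refine ⟨hξ, hη, ?_⟩
  subst hξ hη
  intro i
  fin_cases i
  · simpa using h5
  · simpa using h6
  · simpa using h4

/-- The last step: after the conformal map has been shown to preserve the null direction, the
function `F` must be a cubic polynomial in `x`. -/
lemma cubic (hd : ∀ i j a, d i (d j a) = d j (d i a)) (F F1 F2 F3 F4 X Y T G G' E W H : A)
    (hF0 : d 0 F = F1) (hF01 : d 0 F1 = F2) (hF02 : d 0 F2 = F3) (hF03 : d 0 F3 = F4)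
    (hH : H = X ^ 3 + G * X) (hG : ∀ i, d i G = G' * d i Y) (hEW : E * W = 1)
    (hY0 : d 0 Y = 0) (hY2 : d 2 Y = 0) (hX2 : d 2 X = 0)
    (hτ : d 0 (W * d 1 Y) = 0)
    (e00 : d 0 T * d 0 Y + d 0 X * d 0 X + H * (d 0 Y * d 0 Y) = E)
    (e01 : d 0 T * d 1 Y + d 0 Y * d 1 T + 2 * (d 0 X * d 1 X) + 2 * (H * (d 0 Y * d 1 Y)) = 0)
    (e11 : d 1 T * d 1 Y + d 1 X * d 1 X + H * (d 1 Y * d 1 Y) = E * F)
    (e12 : d 1 T * d 2 Y + d 1 Y * d 2 T + 2 * (d 1 X * d 2 X) + 2 * (H * (d 1 Y * d 2 Y)) = E) :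
    F4 = 0 := by
  have hE : IsUnit E := IsUnit.of_mul_eq_one W hEW
  have hW : IsUnit W := IsUnit.of_mul_eq_one E (by rw [mul_comm]; exact hEW)
  rw [hY0] at e00 e01
  rw [hY2, hX2] at e12
  have a00 : d 0 X * d 0 X = E := by linear_combination e00
  have a01 : d 0 T * d 1 Y + 2 * (d 0 X * d 1 X) = 0 := by linear_combination e01
  have a12 : d 1 Y * d 2 T = E := by linear_combination e12
  have hX0 : IsUnit (d 0 X) := by
    rw [← a00] at hE
    exact isUnit_of_mul_isUnit_left hE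
  have hY1 : IsUnit (d 1 Y) := by
    rw [← a12] at hE
    exact isUnit_of_mul_isUnit_left hE
  have y10 : d 0 (d 1 Y) = 0 := by rw [hd 0 1, hY0, map_zero]
  have w0 : d 0 W = 0 := by
    rw [mul2, y10, mul_zero, zero_add] at hτ
    exact (hY1.mul_right_eq_zero).mp hτ
  have E0 : d 0 E = 0 := by
    have h := congrArg (d 0) hEW
    rw [mul2, w0, mul_zero, zero_add, Derivation.map_one_eq_zero] at h
    exact (hW.mul_right_eq_zero).mp h
  have x00 : d 0 (d 0 X) = 0 := by
    have h := congrArg (d 0) a00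
    rw [mul2, E0] at h
    have h' : 2 * (d 0 X * d 0 (d 0 X)) = 2 * 0 := by linear_combination h
    exact (hX0.mul_right_eq_zero).mp (two_cancel h')
  have x100 : d 0 (d 0 (d 1 X)) = 0 := by
    rw [hd 0 1 X, hd 0 1 (d 0 X), x00, map_zero]
  -- third x-derivative of T vanishes
  have b1 := congrArg (d 0) a01
  simp only [map_add, mul2, map_zero, d_two, mul_zero, add_zero, y10, x00, zero_add] at b1
  have b2 := congrArg (d 0) b1
  simp only [map_add, mul2, map_zero, d_two, mul_zero, add_zero, y10, x00, zero_add,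
    x100] at b2
  have t000 : d 0 (d 0 (d 0 T)) = 0 := (hY1.mul_right_eq_zero).mp b2
  have t1000 : d 0 (d 0 (d 0 (d 1 T))) = 0 := by
    rw [hd 0 1 T, hd 0 1 (d 0 T), hd 0 1 (d 0 (d 0 T)), t000, map_zero]
  -- x-derivatives of H
  have g0 : d 0 G = 0 := by rw [hG, hY0, mul_zero]
  have hH0 : d 0 H = (3 * X ^ 2 + G) * d 0 X := by
    rw [hH, map_add, mul2, g0, pow_succ, pow_succ, pow_one, mul2, mul2]
    ring
  have hH1 : d 0 (d 0 H) = 6 * X * (d 0 X * d 0 X) := by
    have h3 : d 0 (3 : A) = 0 := by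
      have : (3 : A) = algebraMap ℝ A 3 := (map_ofNat (algebraMap ℝ A) 3).symm
      rw [this, Derivation.map_algebraMap]
    rw [hH0, mul2, x00, map_add, g0, mul2, h3, pow_succ, pow_one, mul2]
    ring
  have h6 : d 0 (6 : A) = 0 := by
    have : (6 : A) = algebraMap ℝ A 6 := (map_ofNat (algebraMap ℝ A) 6).symm
    rw [this, Derivation.map_algebraMap]
  have hH2 : d 0 (d 0 (d 0 H)) = 6 * (d 0 X * (d 0 X * d 0 X)) := by
    rw [hH1, mul2, mul2, mul2, x00, h6]
    ring
  have hH3 : d 0 (d 0 (d 0 (d 0 H))) = 0 := by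
    rw [hH2, mul2, mul2, mul2, x00, h6]
    ring
  -- fourth x-derivative of the (1,1) equation
  have c1 := congrArg (d 0) e11
  simp only [map_add, mul2, y10, E0, hF0, mul_zero, add_zero, zero_add] at c1
  have c2 := congrArg (d 0) c1
  simp only [map_add, mul2, y10, E0, hF01, mul_zero, add_zero, zero_add, x100] at c2
  have c3 := congrArg (d 0) c2
  simp only [map_add, mul2, y10, E0, hF02, mul_zero, add_zero, zero_add, x100, t1000] at c3
  have c4 := congrArg (d 0) c3
  simp only [map_add, mul2, y10, E0, hF03, mul_zero, add_zero, zero_add, hH3] at c4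
  exact (hE.mul_right_eq_zero).mp c4.symm

/-- twice the components of the pulled back metric -/
def qf (X Y T H : A) (i j : Fin 3) : A :=
  d i T * d j Y + d i Y * d j T + 2 * (d i X * d j X) + 2 * (H * (d i Y * d j Y))

/-- The field `K` with `K(X) = K(Y) = 0`, `K(T) = 2` preserves the pulled back metric. -/
lemma lie_zero (hd : ∀ i j a, d i (d j a) = d j (d i a)) (X Y T G G' H : A)
    (hH : H = X ^ 3 + G * X) (hG : ∀ i, d i G = G' * d i Y) (K : Fin 3 → A)
    (hY : ∑ l, K l * d l Y = 0) (hX : ∑ l, K l * d l X = 0) (hT : ∑ l, K l * d l T = 2)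
    (i j : Fin 3) :
    ∑ l, K l * d l (qf d X Y T H i j) + ∑ l, qf d X Y T H l j * d i (K l)
      + ∑ l, qf d X Y T H i l * d j (K l) = 0 := by
  have hder : ∀ (Z : A) (c : A) (hc : ∀ i, d i c = 0) (_ : ∑ l, K l * d l Z = c) (i : Fin 3),
      K 0 * d 0 (d i Z) + d 0 Z * d i (K 0) + (K 1 * d 1 (d i Z) + d 1 Z * d i (K 1))
        + (K 2 * d 2 (d i Z) + d 2 Z * d i (K 2)) = 0 := by
    intro Z c hc h i
    have h' := congrArg (d i) h
    rw [Fin.sum_univ_three, map_add, map_add, mul2, mul2, mul2, hc, hd i 0, hd i 1, hd i 2] at h'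
    exact h'
  have hA := hder Y 0 (fun i => map_zero _) hY
  have hB := hder X 0 (fun i => map_zero _) hX
  have hC := hder T 2 (fun i => d_two _) hT
  have hKH : K 0 * d 0 H + K 1 * d 1 H + K 2 * d 2 H = 0 := by
    have hHl : ∀ l, d l H = (3 * X ^ 2 + G) * d l X + G' * X * d l Y := by
      intro l
      rw [hH, map_add, mul2, hG, pow_succ, pow_succ, pow_one, mul2, mul2]
      ring
    rw [Fin.sum_univ_three] at hX hY
    rw [hHl, hHl, hHl]
    linear_combination (3 * X ^ 2 + G) * hX + G' * X * hY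
  simp only [Fin.sum_univ_three, qf, map_add, mul2, d_two, mul_zero, add_zero]
  linear_combination d j Y * hC i + d i T * hA j + d i Y * hC j + d j T * hA i
    + 2 * d j X * hB i + 2 * d i X * hB j + 2 * H * (d j Y * hA i + d i Y * hA j)
    + 2 * d i Y * d j Y * hKH

/-- relations for the inverse metric -/
lemma inverse_relations (F X Y T E W H : A) (hEW : E * W = 1)
    (e00 : qf d X Y T H 0 0 = 2 * E) (e11 : qf d X Y T H 1 1 = 2 * (E * F))
    (e22 : qf d X Y T H 2 2 = 0) (e01 : qf d X Y T H 0 1 = 0) (e02 : qf d X Y T H 0 2 = 0)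
    (e12 : qf d X Y T H 1 2 = E) :
    W * (d 0 Y * d 0 Y + 4 * (d 1 Y * d 2 Y) - 4 * (F * (d 2 Y * d 2 Y))) = 0 ∧
    W * (d 0 X * d 0 Y + 2 * (d 1 X * d 2 Y) + 2 * (d 2 X * d 1 Y)
      - 4 * (F * (d 2 X * d 2 Y))) = 0 ∧
    W * (d 0 T * d 0 Y + 2 * (d 1 T * d 2 Y) + 2 * (d 2 T * d 1 Y)
      - 4 * (F * (d 2 T * d 2 Y))) = 2 := by
  set c : A := algebraMap ℝ A (1 / 2) with hc
  have hc2 : c * 2 = 1 := half_two
  set J : Matrix (Fin 3) (Fin 3) A := !![d 0 X, d 1 X, d 2 X; d 0 Y, d 1 Y, d 2 Y;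
    d 0 T, d 1 T, d 2 T] with hJ
  set P : Matrix (Fin 3) (Fin 3) A := !![2, 0, 0; 0, 2 * H, 1; 0, 1, 0] with hP
  set Q : Matrix (Fin 3) (Fin 3) A := !![c * W, 0, 0; 0, 0, W; 0, W, -(2 * F * W)] with hQ
  set R : Matrix (Fin 3) (Fin 3) A := !![c, 0, 0; 0, 0, 1; 0, 1, -(2 * H)] with hR
  simp only [qf] at e00 e11 e22 e01 e02 e12
  have h1 : (J.transpose * P * J) * Q = 1 := by
    have hJPJ : J.transpose * P * J = !![2 * E, 0, 0; 0, 2 * (E * F), E; 0, E, 0] := by
      ext i j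
      fin_cases i <;> fin_cases j <;>
        simp [Matrix.mul_apply, Fin.sum_univ_three, hJ, hP]
      · linear_combination e00
      · linear_combination e01
      · linear_combination e02
      · linear_combination e01
      · linear_combination e11
      · linear_combination e12
      · linear_combination e02
      · linear_combination e12
      · linear_combination e22
    rw [hJPJ]
    ext i j
    fin_cases i <;> fin_cases j <;>
      simp [Matrix.mul_apply, Fin.sum_univ_three, hQ]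
    · linear_combination c * 2 * hEW + hc2
    · linear_combination hEW
    · ring
    · linear_combination hEW
  have h2 : (J * Q) * (J.transpose * P) = 1 := by
    rw [mul_eq_one_comm, ← Matrix.mul_assoc]
    exact h1
  have hPR : P * R = 1 := by
    ext i j
    fin_cases i <;> fin_cases j <;>
      simp [Matrix.mul_apply, Fin.sum_univ_three, hP, hR]
    · linear_combination hc2
  have h3 : J * Q * J.transpose = R := by
    calc J * Q * J.transpose = J * Q * J.transpose * (P * R) := by rw [hPR, Matrix.mul_one]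
      _ = (J * Q) * (J.transpose * P) * R := by simp only [Matrix.mul_assoc]
      _ = R := by rw [h2, Matrix.one_mul]
  have k11 := congrFun (congrFun h3 1) 1
  have k01 := congrFun (congrFun h3 0) 1
  have k21 := congrFun (congrFun h3 2) 1
  simp [Matrix.mul_apply, Fin.sum_univ_three, hJ, hQ, hR] at k11 k01 k21
  refine ⟨?_, ?_, ?_⟩
  · linear_combination 2 * k11 - W * (d 0 Y * d 0 Y) * hc2
  · linear_combination 2 * k01 - W * (d 0 X * d 0 Y) * hc2
  · linear_combination 2 * k21 - W * (d 0 T * d 0 Y) * hc2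

lemma qf_symm (X Y T H : A) (i j : Fin 3) : qf d X Y T H i j = qf d X Y T H j i := by
  unfold qf
  ring

/-- There is no conformal map from the pp-wave with profile `F`, where `F3` is invertible and
`F4` is not zero, to a pp-wave with a cubic profile. -/
theorem no_conf (hd : ∀ i j a, d i (d j a) = d j (d i a)) [IsReduced A]
    (F F1 F2 F3 F4 X Y T G G' E W H : A)
    (hF0 : d 0 F = F1) (hF1 : d 1 F = 0) (hF2 : d 2 F = 0)
    (hF01 : d 0 F1 = F2) (hF21 : d 2 F1 = 0) (hF02 : d 0 F2 = F3) (hF03 : d 0 F3 = F4)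
    (hu : IsUnit F3) (hu4 : F4 ≠ 0)
    (hH : H = X ^ 3 + G * X) (hG : ∀ i, d i G = G' * d i Y) (hEW : E * W = 1)
    (e00 : qf d X Y T H 0 0 = 2 * E) (e11 : qf d X Y T H 1 1 = 2 * (E * F))
    (e22 : qf d X Y T H 2 2 = 0) (e01 : qf d X Y T H 0 1 = 0) (e02 : qf d X Y T H 0 2 = 0)
    (e12 : qf d X Y T H 1 2 = E) : False := by
  obtain ⟨r1, r2, r3⟩ := inverse_relations d F X Y T E W H hEW e00 e11 e22 e01 e02 e12
  set ξ : A := W * d 0 Y with hξ
  set η : A := 2 * (W * d 2 Y) with hη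
  set τ : A := 2 * (W * (d 1 Y - 2 * (F * d 2 Y))) with hτ
  set K : Fin 3 → A := ![ξ, η, τ] with hK
  have hE : IsUnit E := IsUnit.of_mul_eq_one W hEW
  have hW : IsUnit W := IsUnit.of_mul_eq_one E (by rw [mul_comm]; exact hEW)
  have h2u : IsUnit (2 : A) := IsUnit.of_mul_eq_one (algebraMap ℝ A (1 / 2))
    (by rw [mul_comm]; exact half_two)
  have hKY : ∑ l, K l * d l Y = 0 := by
    rw [Fin.sum_univ_three]
    simp only [hK, Matrix.cons_val_zero, Matrix.cons_val_one, Matrix.cons_val, hξ, hη, hτ]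
    linear_combination r1
  have hKX : ∑ l, K l * d l X = 0 := by
    rw [Fin.sum_univ_three]
    simp only [hK, Matrix.cons_val_zero, Matrix.cons_val_one, Matrix.cons_val, hξ, hη, hτ]
    linear_combination r2
  have hKT : ∑ l, K l * d l T = 2 := by
    rw [Fin.sum_univ_three]
    simp only [hK, Matrix.cons_val_zero, Matrix.cons_val_one, Matrix.cons_val, hξ, hη, hτ]
    linear_combination r3
  have L := lie_zero d hd X Y T G G' H hH hG K hKY hKX hKT
  have e10 : qf d X Y T H 1 0 = 0 := by rw [qf_symm, e01]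
  have e20 : qf d X Y T H 2 0 = 0 := by rw [qf_symm, e02]
  have e21 : qf d X Y T H 2 1 = E := by rw [qf_symm, e12]
  have K0 : K 0 = ξ := rfl
  have K1 : K 1 = η := rfl
  have K2 : K 2 = τ := rfl
  have L22 := L 2 2
  have L02 := L 0 2
  have L00 := L 0 0
  have L12 := L 1 2
  have L01 := L 0 1
  have L11 := L 1 1
  simp only [Fin.sum_univ_three, e00, e11, e22, e01, e02, e12, e10, e20, e21, K0, K1, K2,
    map_zero, mul_zero, zero_mul, add_zero, zero_add, mul2, d_two, hF0, hF1, hF2] at L22 L02 L00 L12 L01 L11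
  have h1 : d 2 η = 0 := by
    have : 2 * (E * d 2 η) = 2 * 0 := by linear_combination L22
    exact (hE.mul_right_eq_zero).mp (two_cancel this)
  have h2 : 2 * d 2 ξ = - d 0 η := by
    have : E * (2 * d 2 ξ + d 0 η) = 0 := by linear_combination L02
    have := (hE.mul_right_eq_zero).mp this
    linear_combination this
  have hKE : ξ * d 0 E + η * d 1 E + τ * d 2 E = - (2 * (E * d 0 ξ)) := by
    apply two_cancel
    linear_combination L00
  have h4 : d 2 τ = 2 * d 0 ξ - d 1 η := by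
    have : E * (d 2 τ - (2 * d 0 ξ - d 1 η)) = 0 := by
      linear_combination L12 - hKE - 2 * E * F * h1
    have := (hE.mul_right_eq_zero).mp this
    linear_combination this
  have h5 : d 0 τ = - (2 * d 1 ξ) - 2 * (F * d 0 η) := by
    have : E * (d 0 τ - (- (2 * d 1 ξ) - 2 * (F * d 0 η))) = 0 := by linear_combination L01
    have := (hE.mul_right_eq_zero).mp this
    linear_combination this
  have h6 : d 1 τ = 2 * (d 0 ξ * F) - F1 * ξ - 2 * (F * d 1 η) := by
    have : 2 * (E * (d 1 τ - (2 * (d 0 ξ * F) - F1 * ξ - 2 * (F * d 1 η)))) = 2 * 0 := by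
      linear_combination L11 - 2 * F * hKE
    have := (hE.mul_right_eq_zero).mp (two_cancel this)
    linear_combination this
  have hN : ξ * ξ + η * τ + F * (η * η) = 0 := by
    simp only [hξ, hη, hτ]
    linear_combination W * r1
  obtain ⟨z1, z2, z3⟩ := null_ckf d hd F F1 F2 F3 ξ η τ hF0 hF2 hF01 hF21 hF02 hu h1 h2 h4 h5 h6 hN
  have hY0 : d 0 Y = 0 := (hW.mul_right_eq_zero).mp z1
  have hY2 : d 2 Y = 0 := (hW.mul_right_eq_zero).mp ((h2u.mul_right_eq_zero).mp z2)
  have hτ' : τ = 2 * (W * d 1 Y) := by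
    rw [hτ, hY2]; ring
  rw [Fin.sum_univ_three, K0, K1, K2, z1, z2] at hKX hKT
  have hτu : IsUnit τ := by
    have : τ * d 2 T = 2 := by linear_combination hKT
    rw [← this] at h2u
    exact isUnit_of_mul_isUnit_left h2u
  have hX2 : d 2 X = 0 := by
    have : τ * d 2 X = 0 := by linear_combination hKX
    exact (hτu.mul_right_eq_zero).mp this
  have hτ0 : d 0 (W * d 1 Y) = 0 := by
    have := z3 0
    rw [hτ', mul2, d_two, mul_zero, add_zero] at this
    exact (h2u.mul_right_eq_zero).mp this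
  apply hu4
  refine cubic d hd F F1 F2 F3 F4 X Y T G G' E W H hF0 hF01 hF02 hF03 hH hG hEW hY0 hY2 hX2 hτ0
    ?_ ?_ ?_ ?_
  · apply two_cancel
    rw [← e00]; unfold qf; ring
  · rw [← e01]; unfold qf; ring
  · apply two_cancel
    rw [← e11]; unfold qf; ring
  · rw [← e12]; unfold qf; ring

end Alg

end Pool.Agent.H.MP_89bbb3_gt
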