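import Mathlib

/-!
Pseudo-Riemannian metrics on `ℝ³` in coordinates: definitions.
The coordinates `(x, y, t)` of a point `q : Fin 3 → ℝ` are `(q 0, q 1, q 2)`.
-/

namespace Pool.Agent.H.MP_89bbb3_gt

open scoped ContDiff

/-- The partial derivative `∂f/∂x_i` of a function on `ℝ³`. -/
noncomputable def pd (i : Fin 3) (f : (Fin 3 → ℝ) → ℝ) (q : Fin 3 → ℝ) : ℝ :=
  fderiv ℝ f q (Pi.single i 1)

/-- A field of `3 × 3` matrices on `ℝ³`, `g q i j = g_{ij}(q)`. -/
abbrev MatrixField : Type := (Fin 3 → ℝ) → Matrix (Fin 3) (Fin 3) ℝ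

/-- A smooth Lorentzian metric on `ℝ³`, with one negative and two positive squares. -/
structure IsLorentzian (g : MatrixField) : Prop where
  smooth : ∀ i j, ContDiff ℝ ∞ (fun q => g q i j)
  symm : ∀ q, (g q).transpose = g q
  signature : ∀ q, ∃ A : Matrix (Fin 3) (Fin 3) ℝ, IsUnit A.det ∧
    A.transpose * g q * A = Matrix.diagonal ![-1, 1, 1]

/-- Christoffel symbols `Γ^k_{ij}` of the Levi-Civita connection. -/
noncomputable def christoffel (g : MatrixField) (k i j : Fin 3) (q : Fin 3 → ℝ) : ℝ :=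
  1 / 2 * ∑ l, (g q)⁻¹ k l *
    (pd i (fun q => g q j l) q + pd j (fun q => g q i l) q - pd l (fun q => g q i j) q)

/-- The Ricci tensor `Ric_{ij} = ∂_k Γ^k_{ij} - ∂_j Γ^k_{ik} + Γ^k_{kl} Γ^l_{ij} - Γ^k_{jl} Γ^l_{ik}`. -/
noncomputable def ricci (g : MatrixField) (i j : Fin 3) (q : Fin 3 → ℝ) : ℝ :=
  ∑ k, (pd k (christoffel g k i j) q - pd j (christoffel g k i k) q
    + ∑ l, (christoffel g k k l q * christoffel g l i j q
      - christoffel g k j l q * christoffel g l i k q))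

/-- The scalar curvature. -/
noncomputable def scal (g : MatrixField) (q : Fin 3 → ℝ) : ℝ :=
  ∑ i, ∑ j, (g q)⁻¹ i j * ricci g i j q

/-- The Schouten tensor `P_{ij} = Ric_{ij} - 1/4 Scal g_{ij}`. -/
noncomputable def schouten (g : MatrixField) (i j : Fin 3) (q : Fin 3 → ℝ) : ℝ :=
  ricci g i j q - 1 / 4 * scal g q * g q i j

/-- The covariant derivative `∇_a P_{bc}` of the Schouten tensor. -/
noncomputable def nablaSchouten (g : MatrixField) (a b c : Fin 3) (q : Fin 3 → ℝ) : ℝ :=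
  pd a (schouten g b c) q - ∑ e, christoffel g e a b q * schouten g e c q
    - ∑ e, christoffel g e a c q * schouten g b e q

/-- The Cotton tensor `Y_{cab} = ∇_a P_{bc} - ∇_b P_{ac}`. -/
noncomputable def cotton (g : MatrixField) (c a b : Fin 3) (q : Fin 3 → ℝ) : ℝ :=
  nablaSchouten g a b c q - nablaSchouten g b a c q

/-- Smooth conformal Killing fields: `L_k g = lam g` for some smooth function `lam`. -/
def IsConformalKilling (g : MatrixField) (k : (Fin 3 → ℝ) → Fin 3 → ℝ) : Prop :=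
  (∀ i, ContDiff ℝ ∞ (fun q => k q i)) ∧
  ∃ lam : (Fin 3 → ℝ) → ℝ, ContDiff ℝ ∞ lam ∧ ∀ q i j,
    ∑ l, (k q l * pd l (fun q => g q i j) q + g q l j * pd i (fun q => k q l) q
      + g q i l * pd j (fun q => k q l) q) = lam q * g q i j

/-- The field `k` is normal: `Y_{abr} k^r = 0`. -/
def IsNormal (g : MatrixField) (k : (Fin 3 → ℝ) → Fin 3 → ℝ) : Prop :=
  ∀ q a b, ∑ r, cotton g a b r q * k q r = 0

/-- The metric `g_h = 1/2 (dt dy + dy dt) + dx² + (x³ + h(y) x) dy²`. -/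
noncomputable def modelMetric (h : ℝ → ℝ) : MatrixField := fun q =>
  !![1, 0, 0; 0, q 0 ^ 3 + h (q 1) * q 0, 1 / 2; 0, 1 / 2, 0]

/-- Some neighbourhood of `p` in `(ℝ³, g)` is conformally diffeomorphic to an open subset of
`(ℝ³, g')`: there are a smooth diffeomorphism `φ` from an open neighbourhood of `p` onto an open
set and a smooth function `u` with `φ^* g' = e^{2u} g`. -/
def LocallyConformalAt (g g' : MatrixField) (p : Fin 3 → ℝ) : Prop :=
  ∃ (φ : OpenPartialHomeomorph (Fin 3 → ℝ) (Fin 3 → ℝ)) (u : (Fin 3 → ℝ) → ℝ),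
    p ∈ φ.source ∧ ContDiffOn ℝ ∞ φ φ.source ∧ ContDiffOn ℝ ∞ φ.symm φ.target ∧
    ContDiffOn ℝ ∞ u φ.source ∧ ∀ q ∈ φ.source, ∀ i j,
      ∑ a, ∑ b, pd i (fun q => φ q a) q * pd j (fun q => φ q b) q * g' (φ q) a b
        = Real.exp (2 * u q) * g q i j

end Pool.Agent.H.MP_89bbb3_gt
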