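import Mathlib
import Pool.Agent.H.MP_89bbb3_gt.Defs

/-!
Germs of smooth functions and their partial derivatives.
-/

namespace Pool.Agent.H.MP_89bbb3_gt

open Filter Topology
open scoped ContDiff

/-- The ring of germs at `p` of smooth functions on `ℝ³`, as a subring of all germs. -/
def smGermSubring (p : Fin 3 → ℝ) : Subring (Germ (𝓝 p) ℝ) where
  carrier := {f | ∃ F : (Fin 3 → ℝ) → ℝ, ContDiffAt ℝ ∞ F p ∧ (F : Germ (𝓝 p) ℝ) = f}
  mul_mem' := by
    rintro _ _ ⟨F, hF, rfl⟩ ⟨G, hG, rfl⟩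
    exact ⟨F * G, hF.mul hG, rfl⟩
  one_mem' := ⟨fun _ => 1, contDiffAt_const, rfl⟩
  add_mem' := by
    rintro _ _ ⟨F, hF, rfl⟩ ⟨G, hG, rfl⟩
    exact ⟨F + G, hF.add hG, rfl⟩
  zero_mem' := ⟨fun _ => 0, contDiffAt_const, rfl⟩
  neg_mem' := by
    rintro _ ⟨F, hF, rfl⟩
    exact ⟨-F, hF.neg, rfl⟩

/-- The ring of germs at `p` of smooth functions on `ℝ³`. -/
def SmGerm (p : Fin 3 → ℝ) : Type := smGermSubring p

noncomputable instance (p : Fin 3 → ℝ) : CommRing (SmGerm p) := (smGermSubring p).toCommRing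

namespace SmGerm

variable {p : Fin 3 → ℝ}

/-- The germ at `p` of a function smooth at `p`. -/
def mk (F : (Fin 3 → ℝ) → ℝ) (hF : ContDiffAt ℝ ∞ F p) : SmGerm p :=
  ⟨(F : Germ (𝓝 p) ℝ), F, hF, rfl⟩

noncomputable instance instAlg : Algebra ℝ (SmGerm p) :=
  RingHom.toAlgebra
    { toFun := fun c => mk (fun _ => c) contDiffAt_const
      map_one' := rfl
      map_mul' := fun _ _ => rfl
      map_zero' := rfl
      map_add' := fun _ _ => rfl }

lemma algebraMap_eq (c : ℝ) : algebraMap ℝ (SmGerm p) c = mk (fun _ => c) contDiffAt_const := rfl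

lemma ind {motive : SmGerm p → Prop}
    (h : ∀ (F : (Fin 3 → ℝ) → ℝ) (hF : ContDiffAt ℝ ∞ F p), motive (mk F hF)) (f : SmGerm p) :
    motive f := by
  obtain ⟨f, F, hF, rfl⟩ := f
  exact h F hF

lemma mk_eq {F G : (Fin 3 → ℝ) → ℝ} {hF : ContDiffAt ℝ ∞ F p} {hG : ContDiffAt ℝ ∞ G p} :
    mk F hF = mk G hG ↔ F =ᶠ[𝓝 p] G :=
  Subtype.ext_iff.trans Germ.coe_eq

lemma mk_congr {F G : (Fin 3 → ℝ) → ℝ} (hF : ContDiffAt ℝ ∞ F p) (hG : ContDiffAt ℝ ∞ G p)
    (h : F =ᶠ[𝓝 p] G) : mk F hF = mk G hG := mk_eq.mpr h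

lemma mk_mul {F G : (Fin 3 → ℝ) → ℝ} {hF : ContDiffAt ℝ ∞ F p} {hG : ContDiffAt ℝ ∞ G p} :
    mk F hF * mk G hG = mk (F * G) (hF.mul hG) := rfl

lemma mk_add {F G : (Fin 3 → ℝ) → ℝ} {hF : ContDiffAt ℝ ∞ F p} {hG : ContDiffAt ℝ ∞ G p} :
    mk F hF + mk G hG = mk (F + G) (hF.add hG) := rfl

lemma pd_smooth (i : Fin 3) {F : (Fin 3 → ℝ) → ℝ} (hF : ContDiffAt ℝ ∞ F p) :
    ContDiffAt ℝ ∞ (pd i F) p :=
  (hF.fderiv_right (m := ∞) le_rfl).clm_apply contDiffAt_const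

lemma pd_congr (i : Fin 3) {F G : (Fin 3 → ℝ) → ℝ} (h : F =ᶠ[𝓝 p] G) :
    pd i F =ᶠ[𝓝 p] pd i G := by
  filter_upwards [h.fderiv (𝕜 := ℝ)] with x hx
  simp [pd, hx]

/-- Partial derivative of a germ. -/
noncomputable def pdGerm (i : Fin 3) (f : Germ (𝓝 p) ℝ) : Germ (𝓝 p) ℝ :=
  Germ.map' (pd i) (fun _ _ h => pd_congr i h) f

lemma pdGerm_mem (i : Fin 3) {f : Germ (𝓝 p) ℝ} (hf : f ∈ smGermSubring p) :
    pdGerm i f ∈ smGermSubring p := by
  obtain ⟨F, hF, rfl⟩ := hf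
  exact ⟨pd i F, pd_smooth i hF, rfl⟩

lemma ev_diff {F : (Fin 3 → ℝ) → ℝ} (hF : ContDiffAt ℝ ∞ F p) :
    ∀ᶠ x in 𝓝 p, DifferentiableAt ℝ F x := by
  have h1 : ContDiffAt ℝ 1 F p := hF.of_le (by exact_mod_cast le_top)
  filter_upwards [h1.eventually (by simp)] with x hx using hx.differentiableAt (by simp)

lemma pd_add (i : Fin 3) {F G : (Fin 3 → ℝ) → ℝ} (hF : ContDiffAt ℝ ∞ F p)
    (hG : ContDiffAt ℝ ∞ G p) : pd i (F + G) =ᶠ[𝓝 p] pd i F + pd i G := by
  filter_upwards [ev_diff hF, ev_diff hG] with x hx hx'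
  simp [pd, fderiv_add hx hx']

lemma pd_mul (i : Fin 3) {F G : (Fin 3 → ℝ) → ℝ} (hF : ContDiffAt ℝ ∞ F p)
    (hG : ContDiffAt ℝ ∞ G p) :
    pd i (F * G) =ᶠ[𝓝 p] F * pd i G + G * pd i F := by
  filter_upwards [ev_diff hF, ev_diff hG] with x hx hx'
  simp [pd, fderiv_mul hx hx']

lemma pd_const (i : Fin 3) (c : ℝ) : pd i (fun _ : Fin 3 → ℝ => c) = fun _ => 0 := by
  funext x
  simp [pd]

/-- The partial derivative as a derivation of the ring of smooth germs. -/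
noncomputable def pdD (i : Fin 3) : Derivation ℝ (SmGerm p) (SmGerm p) where
  toFun f := ⟨pdGerm i f.1, pdGerm_mem i f.2⟩
  map_add' f g := by
    induction f using ind with | h F hF => ?_
    induction g using ind with | h G hG => ?_
    exact mk_congr (pd_smooth i (hF.add hG))
      ((pd_smooth i hF).add (pd_smooth i hG)) (pd_add i hF hG)
  map_smul' c f := by
    induction f using ind with | h F hF => ?_
    exact mk_congr (pd_smooth i (contDiffAt_const.mul hF))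
      (contDiffAt_const.mul (pd_smooth i hF)) ((pd_mul i contDiffAt_const hF).trans
        (Eventually.of_forall fun x => by
          simp [pd]))
  map_one_eq_zero' :=
    mk_congr (pd_smooth i (contDiffAt_const (c := (1 : ℝ))))
      (contDiffAt_const (c := (0 : ℝ))) (by rw [pd_const])
  leibniz' f g := by
    induction f using ind with | h F hF => ?_
    induction g using ind with | h G hG => ?_
    exact mk_congr (pd_smooth i (hF.mul hG))
      ((hF.mul (pd_smooth i hG)).add (hG.mul (pd_smooth i hF))) (pd_mul i hF hG)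

lemma pd_mk (i : Fin 3) (F : (Fin 3 → ℝ) → ℝ) (hF : ContDiffAt ℝ ∞ F p) :
    pdD i (mk F hF) = mk (pd i F) (pd_smooth i hF) := rfl

lemma pd_comm (i j : Fin 3) (f : SmGerm p) : pdD i (pdD j f) = pdD j (pdD i f) := by
  induction f using ind with | h F hF => ?_
  rw [pd_mk, pd_mk, pd_mk, pd_mk, mk_eq]
  have h2 : ContDiffAt ℝ 2 F p := contDiffAt_infty.mp hF 2
  filter_upwards [h2.eventually (by simp)] with x hx
  have h2 : DifferentiableAt ℝ (fderiv ℝ F) x :=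
    (hx.fderiv_right (m := 1) (by norm_num)).differentiableAt (by simp)
  have hs : IsSymmSndFDerivAt ℝ F x := hx.isSymmSndFDerivAt (by simp)
  have key : ∀ k l : Fin 3, pd k (pd l F) x
      = fderiv ℝ (fderiv ℝ F) x (Pi.single k 1) (Pi.single l 1) := by
    intro k l
    have : pd l F = fun y => (fderiv ℝ F y) (Pi.single l 1) := rfl
    rw [pd, this, fderiv_clm_apply h2 (differentiableAt_const _)]
    simp
  rw [key, key]
  exact hs.eq _ _

instance : IsReduced (SmGerm p) := by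
  constructor
  intro f hf
  obtain ⟨n, hn⟩ := hf
  induction f using ind with | h F hF => ?_
  have hpow : ∀ n : ℕ, (mk F hF) ^ n = mk (F ^ n) (hF.pow n) := by
    intro n
    induction n with
    | zero => rfl
    | succ n ih => rw [pow_succ, ih]; rfl
  rw [hpow] at hn
  have h0 : (0 : SmGerm p) = mk (fun _ => 0) contDiffAt_const := rfl
  rw [h0, mk_eq] at hn
  rw [h0, mk_eq]
  filter_upwards [hn] with x hx
  have hx' : F x ^ n = 0 := hx
  exact eq_zero_of_pow_eq_zero hx'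

lemma isUnit_mk {F : (Fin 3 → ℝ) → ℝ} (hF : ContDiffAt ℝ ∞ F p) (h : F p ≠ 0) :
    IsUnit (mk F hF) := by
  refine IsUnit.of_mul_eq_one (mk (fun x => (F x)⁻¹) (hF.inv h)) ?_
  rw [mk_mul]
  refine mk_congr _ (contDiffAt_const (c := (1 : ℝ))) ?_
  filter_upwards [hF.continuousAt.eventually_ne h] with x hx
  simp [hx]

lemma mk_ne_zero {F : (Fin 3 → ℝ) → ℝ} (hF : ContDiffAt ℝ ∞ F p) (h : F p ≠ 0) :
    mk F hF ≠ 0 := by
  intro h0
  have h0' : (0 : SmGerm p) = mk (fun _ => 0) contDiffAt_const := rfl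
  rw [h0', mk_eq] at h0
  exact h h0.self_of_nhds

end SmGerm

end Pool.Agent.H.MP_89bbb3_gt
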