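import Mathlib
import Pool.Agent.H.MP_89bbb3_gt.Defs
import Pool.Agent.H.MP_89bbb3_gt.Alg
import Pool.Agent.H.MP_89bbb3_gt.SmoothGerm

/-!
From a local conformal map to the algebraic identities between germs.
-/

namespace Pool.Agent.H.MP_89bbb3_gt

open Filter Topology SmGerm
open scoped ContDiff

/-- The metric `1/2 (dt dy + dy dt) + dx² + x⁴ dy²`. -/
noncomputable def exMetric : MatrixField := fun q =>
  !![1, 0, 0; 0, q 0 ^ 4, 1 / 2; 0, 1 / 2, 0]

lemma coord_smooth (p : Fin 3 → ℝ) (i : Fin 3) :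
    ContDiffAt ℝ ∞ (fun q : Fin 3 → ℝ => q i) p := contDiffAt_apply ℝ ℝ i p

lemma pow_smooth (p : Fin 3 → ℝ) (c : ℝ) (n : ℕ) :
    ContDiffAt ℝ ∞ (fun q : Fin 3 → ℝ => c * q 0 ^ n) p :=
  contDiffAt_const.mul ((coord_smooth p 0).pow n)

lemma pd_pow (i : Fin 3) (c : ℝ) (n : ℕ) (q : Fin 3 → ℝ) :
    pd i (fun q : Fin 3 → ℝ => c * q 0 ^ n) q = if i = 0 then c * (n * q 0 ^ (n - 1)) else 0 := by
  have h1 : HasFDerivAt (fun q : Fin 3 → ℝ => q 0)
      (ContinuousLinearMap.proj (R := ℝ) (φ := fun _ : Fin 3 => ℝ) 0) q :=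
    (ContinuousLinearMap.proj (R := ℝ) (φ := fun _ : Fin 3 => ℝ) 0).hasFDerivAt
  have h2 : HasFDerivAt (fun q : Fin 3 → ℝ => c * q 0 ^ n)
      (c • ((n * q 0 ^ (n - 1)) • ContinuousLinearMap.proj (R := ℝ) (φ := fun _ : Fin 3 => ℝ) 0))
      q := by
    have := (h1.pow n).const_mul c
    simpa [nsmul_eq_mul] using this
  rw [pd, h2.fderiv]
  fin_cases i <;> simp

lemma not_conformal (h : ℝ → ℝ) (hh : ContDiff ℝ ∞ h) (p : Fin 3 → ℝ) (hp0 : p 0 ≠ 0) :
    ¬ LocallyConformalAt exMetric (modelMetric h) p := by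
  rintro ⟨φ, u, hp, hφ, -, hu, heq⟩
  have hsrc : φ.source ∈ 𝓝 p := φ.open_source.mem_nhds hp
  have hφp : ContDiffAt ℝ ∞ φ p := hφ.contDiffAt hsrc
  have hc : ∀ a, ContDiffAt ℝ ∞ (fun q => φ q a) p := fun a => contDiffAt_pi.mp hφp a
  have hup : ContDiffAt ℝ ∞ u p := hu.contDiffAt hsrc
  have hG : ContDiffAt ℝ ∞ (fun q => h (φ q 1)) p := hh.contDiffAt.comp p (hc 1)
  have hh' : ContDiff ℝ ∞ (deriv h) := (contDiff_infty_iff_deriv.mp hh).2
  have hG' : ContDiffAt ℝ ∞ (fun q => deriv h (φ q 1)) p := hh'.contDiffAt.comp p (hc 1)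
  have hE : ContDiffAt ℝ ∞ (fun q => Real.exp (2 * u q)) p :=
    (contDiffAt_const.mul hup).exp
  have hW : ContDiffAt ℝ ∞ (fun q => Real.exp (-(2 * u q))) p :=
    ((contDiffAt_const.mul hup).neg).exp
  have htwo : (2 : SmGerm p) = mk (fun _ => 2) contDiffAt_const :=
    (map_ofNat (algebraMap ℝ (SmGerm p)) 2).symm
  have hzero : (0 : SmGerm p) = mk (fun _ => 0) contDiffAt_const := rfl
  set d : Fin 3 → Derivation ℝ (SmGerm p) (SmGerm p) := fun i => pdD i with hd
  have hqf : ∀ i j, qf d (mk _ (hc 0)) (mk _ (hc 1)) (mk _ (hc 2))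
      (mk _ (hc 0) ^ 3 + mk _ hG * mk _ (hc 0)) i j
      = mk (fun q => pd i (fun q => φ q 2) q * pd j (fun q => φ q 1) q
        + pd i (fun q => φ q 1) q * pd j (fun q => φ q 2) q
        + 2 * (pd i (fun q => φ q 0) q * pd j (fun q => φ q 0) q)
        + 2 * ((φ q 0 ^ 3 + h (φ q 1) * φ q 0)
          * (pd i (fun q => φ q 1) q * pd j (fun q => φ q 1) q)))
        (((((pd_smooth i (hc 2)).mul (pd_smooth j (hc 1))).add
          ((pd_smooth i (hc 1)).mul (pd_smooth j (hc 2)))).add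
          (contDiffAt_const.mul ((pd_smooth i (hc 0)).mul (pd_smooth j (hc 0))))).add
          (contDiffAt_const.mul ((((hc 0).pow 3).add (hG.mul (hc 0))).mul
            ((pd_smooth i (hc 1)).mul (pd_smooth j (hc 1)))))) := by
    intro i j
    unfold qf
    rw [htwo]
    rfl
  have hev : ∀ i j, ∀ᶠ q in 𝓝 p, pd i (fun q => φ q 2) q * pd j (fun q => φ q 1) q
        + pd i (fun q => φ q 1) q * pd j (fun q => φ q 2) q
        + 2 * (pd i (fun q => φ q 0) q * pd j (fun q => φ q 0) q)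
        + 2 * ((φ q 0 ^ 3 + h (φ q 1) * φ q 0)
          * (pd i (fun q => φ q 1) q * pd j (fun q => φ q 1) q))
        = 2 * (Real.exp (2 * u q) * exMetric q i j) := by
    intro i j
    filter_upwards [hsrc] with q hq
    have := heq q hq i j
    rw [← this]
    simp only [Fin.sum_univ_three, modelMetric]
    simp
    ring
  refine no_conf (d := d) (fun i j a => pd_comm i j a)
    (mk _ (pow_smooth p 1 4)) (mk _ (pow_smooth p 4 3)) (mk _ (pow_smooth p 12 2))
    (mk _ (pow_smooth p 24 1)) (mk _ (pow_smooth p 24 0)) (mk _ (hc 0)) (mk _ (hc 1))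
    (mk _ (hc 2)) (mk _ hG) (mk _ hG') (mk _ hE) (mk _ hW) _ ?_ ?_ ?_ ?_ ?_ ?_ ?_ ?_ ?_ rfl ?_ ?_
    ?_ ?_ ?_ ?_ ?_ ?_
  · simp only [hd, pd_mk, hzero]
    rw [mk_eq]
    refine Eventually.of_forall fun q => ?_
    rw [pd_pow]; simp
  · simp only [hd, pd_mk, hzero]
    rw [mk_eq]
    refine Eventually.of_forall fun q => ?_
    rw [pd_pow]; simp
  · simp only [hd, pd_mk, hzero]
    rw [mk_eq]
    refine Eventually.of_forall fun q => ?_
    rw [pd_pow]; simp
  · simp only [hd, pd_mk, hzero]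
    rw [mk_eq]
    refine Eventually.of_forall fun q => ?_
    rw [pd_pow]; simp; ring
  · simp only [hd, pd_mk, hzero]
    rw [mk_eq]
    refine Eventually.of_forall fun q => ?_
    rw [pd_pow]; simp
  · simp only [hd, pd_mk, hzero]
    rw [mk_eq]
    refine Eventually.of_forall fun q => ?_
    rw [pd_pow]; simp; ring
  · simp only [hd, pd_mk, hzero]
    rw [mk_eq]
    refine Eventually.of_forall fun q => ?_
    rw [pd_pow]; simp
  · exact isUnit_mk _ (by simpa using hp0)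
  · exact mk_ne_zero _ (by norm_num)
  · intro i
    simp only [hd, pd_mk, mk_mul]
    rw [mk_eq]
    filter_upwards [ev_diff (hc 1)] with q hq
    have h1 : HasFDerivAt (fun q => φ q 1) (fderiv ℝ (fun q => φ q 1) q) q := hq.hasFDerivAt
    have h2 : HasDerivAt h (deriv h (φ q 1)) (φ q 1) :=
      ((hh.differentiable (by simp)) (φ q 1)).hasDerivAt
    have h3 := h2.comp_hasFDerivAt q h1
    show pd i (fun q => h (φ q 1)) q = deriv h (φ q 1) * pd i (fun q => φ q 1) q
    have h4 : (fun q => h (φ q 1)) = h ∘ (fun q => φ q 1) := rfl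
    rw [pd, h4, h3.fderiv]
    simp [pd]
  · rw [mk_mul]
    rw [show (1 : SmGerm p) = mk (fun _ => 1) contDiffAt_const from rfl, mk_eq]
    refine Eventually.of_forall fun q => ?_
    simp [← Real.exp_add]
  · rw [hqf, htwo, mk_mul]
    rw [mk_eq]
    filter_upwards [hev 0 0] with q hq
    rw [hq]; simp [exMetric]
  · rw [hqf, htwo, mk_mul, mk_mul]
    rw [mk_eq]
    filter_upwards [hev 1 1] with q hq
    rw [hq]; simp [exMetric]
  · rw [hqf, hzero]
    rw [mk_eq]
    filter_upwards [hev 2 2] with q hq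
    rw [hq]; simp [exMetric]
  · rw [hqf, hzero]
    rw [mk_eq]
    filter_upwards [hev 0 1] with q hq
    rw [hq]; simp [exMetric]
  · rw [hqf, hzero]
    rw [mk_eq]
    filter_upwards [hev 0 2] with q hq
    rw [hq]; simp [exMetric]
  · rw [hqf]
    rw [mk_eq]
    filter_upwards [hev 1 2] with q hq
    rw [hq]; simp [exMetric]; ring

end Pool.Agent.H.MP_89bbb3_gt
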