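import Mathlib
import Pool.Agent.H.MP_89bbb3_gt.Defs
import Pool.Agent.H.MP_89bbb3_gt.Bridge

/-!
The curvature of the metric `1/2 (dt dy + dy dt) + dx² + x⁴ dy²`.
-/

namespace Pool.Agent.H.MP_89bbb3_gt

open scoped ContDiff

lemma exMetric_inv (q : Fin 3 → ℝ) :
    (exMetric q)⁻¹ = !![1, 0, 0; 0, 0, 2; 0, 2, -(4 * q 0 ^ 4)] := by
  apply Matrix.inv_eq_right_inv
  ext i j
  fin_cases i <;> fin_cases j <;>
    simp [exMetric, Matrix.mul_apply, Fin.sum_univ_three] <;> ring

/-- The coefficient of `x⁴` in the entries of the metric. -/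
noncomputable def c4 (i j : Fin 3) : ℝ := if i = 1 ∧ j = 1 then 1 else 0

/-- The constant term of the entries of the metric. -/
noncomputable def c0 : Matrix (Fin 3) (Fin 3) ℝ := !![1, 0, 0; 0, 0, 1 / 2; 0, 1 / 2, 0]

lemma exMetric_entry (i j : Fin 3) :
    (fun q => exMetric q i j) = fun q => c4 i j * q 0 ^ 4 + c0 i j * q 0 ^ 0 := by
  funext q
  fin_cases i <;> fin_cases j <;> simp [exMetric, c4, c0]

lemma pd_add_fun (i : Fin 3) (c c' : ℝ) (n m : ℕ) (q : Fin 3 → ℝ) :
    pd i (fun q : Fin 3 → ℝ => c * q 0 ^ n + c' * q 0 ^ m) q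
      = pd i (fun q : Fin 3 → ℝ => c * q 0 ^ n) q + pd i (fun q : Fin 3 → ℝ => c' * q 0 ^ m) q := by
  have h1 : DifferentiableAt ℝ (fun q : Fin 3 → ℝ => c * q 0 ^ n) q :=
    (pow_smooth q c n).differentiableAt (by simp)
  have h2 : DifferentiableAt ℝ (fun q : Fin 3 → ℝ => c' * q 0 ^ m) q :=
    (pow_smooth q c' m).differentiableAt (by simp)
  have : (fun q : Fin 3 → ℝ => c * q 0 ^ n + c' * q 0 ^ m)
    = (fun q : Fin 3 → ℝ => c * q 0 ^ n) + (fun q : Fin 3 → ℝ => c' * q 0 ^ m) := rfl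
  rw [pd, this, fderiv_add h1 h2]
  rfl

lemma pd_exMetric (i j l : Fin 3) (q : Fin 3 → ℝ) :
    pd i (fun q => exMetric q j l) q = if i = 0 ∧ j = 1 ∧ l = 1 then 4 * q 0 ^ 3 else 0 := by
  rw [exMetric_entry, pd_add_fun, pd_pow, pd_pow]
  fin_cases i <;> fin_cases j <;> fin_cases l <;> simp [c4]

/-- The coefficients of the Christoffel symbols. -/
noncomputable def cc (k i j : Fin 3) : ℝ :=
  if k = 0 ∧ i = 1 ∧ j = 1 then -2 else
    if k = 2 ∧ ((i = 0 ∧ j = 1) ∨ (i = 1 ∧ j = 0)) then 4 else 0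

lemma christoffel_ex (k i j : Fin 3) :
    christoffel exMetric k i j = fun q => cc k i j * q 0 ^ 3 := by
  funext q
  rw [christoffel, exMetric_inv]
  simp only [pd_exMetric, Fin.sum_univ_three]
  fin_cases k <;> fin_cases i <;> fin_cases j <;> simp [cc] <;> ring

/-- The coefficients of the Ricci tensor. -/
noncomputable def rr (i j : Fin 3) : ℝ := if i = 1 ∧ j = 1 then -6 else 0

lemma ricci_ex (i j : Fin 3) : ricci exMetric i j = fun q => rr i j * q 0 ^ 2 := by
  funext q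
  rw [ricci]
  simp only [christoffel_ex, pd_pow, Fin.sum_univ_three]
  fin_cases i <;> fin_cases j <;> simp [cc, rr] <;> ring

lemma scal_ex (q : Fin 3 → ℝ) : scal exMetric q = 0 := by
  rw [scal, exMetric_inv]
  simp only [ricci_ex, Fin.sum_univ_three]
  simp [rr]

lemma schouten_ex (i j : Fin 3) : schouten exMetric i j = fun q => rr i j * q 0 ^ 2 := by
  funext q
  rw [schouten, scal_ex, ricci_ex]
  simp

lemma nabla_ex (a b c : Fin 3) (q : Fin 3 → ℝ) :
    nablaSchouten exMetric a b c q = if a = 0 ∧ b = 1 ∧ c = 1 then -12 * q 0 else 0 := by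
  rw [nablaSchouten]
  simp only [christoffel_ex, schouten_ex, pd_pow, Fin.sum_univ_three]
  fin_cases a <;> fin_cases b <;> fin_cases c <;> simp [cc, rr] <;> ring

lemma cotton_ex (c a b : Fin 3) (q : Fin 3 → ℝ) :
    cotton exMetric c a b q = (if a = 0 ∧ b = 1 ∧ c = 1 then -12 * q 0 else 0)
      - (if b = 0 ∧ a = 1 ∧ c = 1 then -12 * q 0 else 0) := by
  rw [cotton, nabla_ex, nabla_ex]

lemma cotton_ne (p : Fin 3 → ℝ) (h : ∃ c a b, cotton exMetric c a b p ≠ 0) : p 0 ≠ 0 := by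
  rintro hp
  obtain ⟨c, a, b, h⟩ := h
  rw [cotton_ex, hp] at h
  simp at h

lemma lorentzian_ex : IsLorentzian exMetric where
  smooth i j := by
    rw [exMetric_entry]
    fun_prop
  symm q := by
    ext i j
    fin_cases i <;> fin_cases j <;> simp [exMetric]
  signature q := by
    refine ⟨!![0, 1, 0; 1, 0, 1; -(1 + q 0 ^ 4), 0, 1 - q 0 ^ 4], ?_, ?_⟩
    · rw [Matrix.det_fin_three]
      simp
      ring_nf
      norm_num
    · ext i j
      fin_cases i <;> fin_cases j <;>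
        simp [exMetric, Matrix.mul_apply, Fin.sum_univ_three] <;> ring

/-- The vector field `∂_t`. -/
def dt : (Fin 3 → ℝ) → Fin 3 → ℝ := fun _ => ![0, 0, 1]

lemma ckf_ex : IsConformalKilling exMetric dt := by
  refine ⟨fun i => contDiff_const, fun _ => 0, contDiff_const, fun q i j => ?_⟩
  simp only [pd_exMetric, Fin.sum_univ_three]
  simp [dt, pd]

lemma normal_ex : IsNormal exMetric dt := by
  intro q a b
  simp only [cotton_ex, Fin.sum_univ_three]
  simp [dt]

end Pool.Agent.H.MP_89bbb3_gt
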